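import Pool.Agent.Helper63_MG.Util

/-!
# CLP: cluster points of sequences of sets of naturals
-/

open Set

namespace Pool.Agent.MG.H63

open Classical in
/-- The initial segments of the cluster point. -/
noncomputable def clP : ℕ → (ℕ → Set ℕ) → Finset ℕ
  | 0, _ => ∅
  | n + 1, F => if {k | (∀ m < n, (m ∈ F k ↔ m ∈ clP n F)) ∧ n ∈ F k}.Infinite then
      insert n (clP n F) else clP n F

theorem clP_lt (F : ℕ → Set ℕ) (n : ℕ) : ∀ m ∈ clP n F, m < n := by
  induction n with
  | zero => simp [clP]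
  | succ n ih =>
    intro m hm
    unfold clP at hm
    split_ifs at hm with h
    · rw [Finset.mem_insert] at hm
      rcases hm with rfl | hm
      · exact Nat.lt_succ_self _
      · exact (ih m hm).trans (Nat.lt_succ_self _)
    · exact (ih m hm).trans (Nat.lt_succ_self _)

theorem clP_inf (F : ℕ → Set ℕ) (n : ℕ) :
    {k | ∀ m < n, (m ∈ F k ↔ m ∈ clP n F)}.Infinite := by
  induction n with
  | zero =>
    have : {k : ℕ | ∀ m < 0, (m ∈ F k ↔ m ∈ clP 0 F)} = Set.univ := by
      ext k
      simp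
    rw [this]
    exact Set.infinite_univ
  | succ n ih =>
    by_cases h : {k | (∀ m < n, (m ∈ F k ↔ m ∈ clP n F)) ∧ n ∈ F k}.Infinite
    · refine h.mono ?_
      rintro k ⟨h1, h2⟩ m hm
      have he : clP (n + 1) F = insert n (clP n F) := by
        conv_lhs => unfold clP
        rw [if_pos h]
      rw [he, Finset.mem_insert]
      rcases Nat.lt_succ_iff_lt_or_eq.1 hm with hm | rfl
      · rw [h1 m hm]
        simp [hm.ne]
      · simp [h2]
    · have he : clP (n + 1) F = clP n F := by
        conv_lhs => unfold clP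
        rw [if_neg h]
      rw [he]
      have h3 : {k | ∀ m < n, (m ∈ F k ↔ m ∈ clP n F)} ⊆
          {k | (∀ m < n, (m ∈ F k ↔ m ∈ clP n F)) ∧ n ∈ F k} ∪
          {k | ∀ m < n + 1, (m ∈ F k ↔ m ∈ clP n F)} := by
        intro k hk
        by_cases hn : n ∈ F k
        · exact Or.inl ⟨hk, hn⟩
        · refine Or.inr fun m hm => ?_
          rcases Nat.lt_succ_iff_lt_or_eq.1 hm with hm | rfl
          · exact hk m hm
          · exact ⟨fun h => absurd h hn, fun h => absurd (clP_lt F _ _ h) (lt_irrefl _)⟩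
      rcases Set.infinite_union.1 (ih.mono h3) with h4 | h4
      · exact absurd h4 h
      · exact h4

/-- The cluster point. -/
noncomputable def clX (F : ℕ → Set ℕ) : Set ℕ := {n | n ∈ clP (n + 1) F}

theorem clP_stable (F : ℕ → Set ℕ) (n m : ℕ) (h : m < n) : m ∈ clP n F ↔ m ∈ clX F := by
  induction n with
  | zero => exact absurd h (Nat.not_lt_zero _)
  | succ n ih =>
    rcases Nat.lt_succ_iff_lt_or_eq.1 h with h | rfl
    · rw [← ih h]
      conv_lhs => unfold clP
      split_ifs
      · rw [Finset.mem_insert]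
        simp [h.ne]
      · rfl
    · rfl

theorem clX_inf (F : ℕ → Set ℕ) (n : ℕ) : {k | ∀ m < n, (m ∈ F k ↔ m ∈ clX F)}.Infinite := by
  refine (clP_inf F n).mono fun k hk m hm => ?_
  rw [← clP_stable F n m hm]
  exact hk m hm

theorem meas_mem (k m : ℕ) : MeasurableSet {F : ℕ → Set ℕ | m ∈ F k} := by
  have h : Measurable fun F : ℕ → Set ℕ => m ∈ F k :=
    (measurable_set_mem m).comp (measurable_pi_apply k)
  exact measurableSet_setOfPred.2 h

theorem measIff {Ω : Type*} [MeasurableSpace Ω] {p q : Ω → Prop} (hp : MeasurableSet {w | p w})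
    (hq : MeasurableSet {w | q w}) : MeasurableSet {w | p w ↔ q w} := by
  have h : {w | p w ↔ q w} = ({w | p w} ∩ {w | q w}) ∪ ({w | p w}ᶜ ∩ {w | q w}ᶜ) := by
    ext w
    by_cases h1 : p w <;> by_cases h2 : q w <;> simp [h1, h2]
  rw [h]
  exact (hp.inter hq).union (hp.compl.inter hq.compl)

theorem measAllLt {Ω : Type*} [MeasurableSpace Ω] {p : ℕ → Ω → Prop} (n : ℕ)
    (hp : ∀ m, MeasurableSet {w | p m w}) : MeasurableSet {w | ∀ m < n, p m w} := by
  have h : {w | ∀ m < n, p m w} = ⋂ m ∈ {m | m < n}, {w | p m w} := by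
    ext w
    simp
  rw [h]
  exact MeasurableSet.biInter (Set.to_countable _) fun m _ => hp m

theorem clP_meas (n : ℕ) : MeasC (clP n) := by
  classical
  induction n with
  | zero => exact mcConst ∅
  | succ n ih =>
    have h : clP (n + 1) = fun F => (fun (A : Finset ℕ) (F : ℕ → Set ℕ) =>
        if {k | (∀ m < n, (m ∈ F k ↔ m ∈ A)) ∧ n ∈ F k}.Infinite then insert n A else A)
          (clP n F) F := by
      funext F
      conv_lhs => unfold clP
    rw [h]
    refine mcBind ih (g := fun (A : Finset ℕ) (F : ℕ → Set ℕ) =>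
        if {k | (∀ m < n, (m ∈ F k ↔ m ∈ A)) ∧ n ∈ F k}.Infinite then insert n A else A)
      fun A => mcIte ?_ (mcConst _) (mcConst _)
    refine measInf fun k => ?_
    exact MeasurableSet.inter (measAllLt n fun m => measIff (meas_mem k m)
      (MeasurableSet.const _)) (meas_mem k n)

theorem clX_meas : Measurable clX :=
  measSet fun n => mcPre (clP_meas (n + 1)) {A | n ∈ A}

theorem clX_mem_meas (n : ℕ) : MeasurableSet {F : ℕ → Set ℕ | n ∈ clX F} :=
  mcPre (clP_meas (n + 1)) {A | n ∈ A}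

/-- The subsequence. -/
noncomputable def clK (F : ℕ → Set ℕ) : ℕ → ℕ
  | 0 => 0
  | k + 1 => sInf {j | clK F k < j ∧ ∀ n < k + 1, (n ∈ F j ↔ n ∈ clX F)}

theorem clK_spec (F : ℕ → Set ℕ) (k : ℕ) :
    clK F k < clK F (k + 1) ∧ ∀ n < k + 1, (n ∈ F (clK F (k + 1)) ↔ n ∈ clX F) := by
  have h : {j | clK F k < j ∧ ∀ n < k + 1, (n ∈ F j ↔ n ∈ clX F)}.Nonempty := by
    obtain ⟨j, h1, h2⟩ := (Set.infinite_iff_exists_gt.1 (clX_inf F (k + 1))) (clK F k)
    exact ⟨j, h2, h1⟩
  exact Nat.sInf_mem h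

theorem clK_meas (k : ℕ) : MeasC (fun F => clK F k) := by
  induction k with
  | zero => exact mcConst 0
  | succ k ih =>
    refine mcBind ih (g := fun x F => sInf {j | x < j ∧ ∀ n < k + 1, (n ∈ F j ↔ n ∈ clX F)})
      fun x => mcInf fun j => ?_
    exact MeasurableSet.inter (MeasurableSet.const _) (measAllLt (k + 1) fun n =>
      measIff (meas_mem j n) (clX_mem_meas n))

theorem clp : ClpStmt := by
  refine ⟨clX, clK, clX_meas, clK_meas, fun F => ⟨strictMono_nat_of_lt_succ fun k =>
    (clK_spec F k).1, ?_⟩⟩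
  rintro (_ | k) n hn
  · exact absurd hn (Nat.not_lt_zero _)
  · exact (clK_spec F k).2 n hn

end Pool.Agent.MG.H63
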