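import Pool.Agent.Helper63_MG.Util

/-!
# GAP: the interval lemma
-/

open Set

namespace Pool.Agent.MG.H63

/-- The data of the interval lemma. -/
abbrev LK := (List ℕ → ℕ) × (List ℕ → ℕ → ℕ)

/-- States: end point of the last interval, and the two finite parts. -/
abbrev St := ℕ × Finset (List ℕ) × Finset (List ℕ)

/-- One of the two finite parts. -/
def sel (v : Bool) (x : St) : Finset (List ℕ) := if v then x.2.2 else x.2.1

/-- The next end point. -/
def nx' (z : LK) (x : St) : ℕ := max (x.1 + 1) ((x.2.1 ∪ x.2.2).sup z.1)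

/-- The new successor. -/
noncomputable def kk (z : LK) (m n : ℕ) (s : List ℕ) : ℕ := sInf {k | m ≤ k ∧ n ≤ z.2 s k}

/-- Add a new successor to every element. -/
noncomputable def grow (z : LK) (m n : ℕ) (A : Finset (List ℕ)) : Finset (List ℕ) :=
  A ∪ A.image fun s => s ++ [kk z m n s]

/-- One stage. -/
noncomputable def step (z : LK) (m : ℕ) (x : St) : St :=
  (nx' z x, if m % 2 = 0 then grow z m (nx' z x) x.2.1 else x.2.1,
    if m % 2 = 0 then x.2.2 else grow z m (nx' z x) x.2.2)

/-- The construction. -/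
noncomputable def st (z : LK) : ℕ → St
  | 0 => (z.1 [], {[]}, {[]})
  | m + 1 => step z m (st z m)

theorem sel_step (z : LK) (m : ℕ) (x : St) (v : Bool) :
    sel v (step z m x) = if m % 2 = (if v then 1 else 0) then grow z m (nx' z x) (sel v x)
      else sel v x := by
  have h : m % 2 = 0 ∨ m % 2 = 1 := Nat.mod_two_eq_zero_or_one m
  rcases h with h | h <;> cases v <;> simp [sel, step, h]

theorem sel_sub (z : LK) (m : ℕ) (v : Bool) : sel v (st z m) ⊆ sel v (st z (m + 1)) := by
  change sel v (st z m) ⊆ sel v (step z m (st z m))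
  rw [sel_step]
  by_cases h : m % 2 = (if v then 1 else 0)
  · rw [if_pos h]
    exact Finset.subset_union_left
  · rw [if_neg h]

theorem sel_mono (z : LK) (v : Bool) {m n : ℕ} (h : m ≤ n) :
    sel v (st z m) ⊆ sel v (st z n) := by
  induction h with
  | refl => exact Finset.Subset.refl _
  | step _ ih => exact ih.trans (sel_sub z _ v)

theorem nn_succ (z : LK) (m : ℕ) : (st z (m + 1)).1 = nx' z (st z m) := rfl

theorem nn_strict (z : LK) : StrictMono fun m => (st z m).1 :=
  strictMono_nat_of_lt_succ fun m => by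
    rw [nn_succ]
    exact lt_of_lt_of_le (Nat.lt_succ_self _) (le_max_left _ _)

theorem sel_subset_union (v : Bool) (x : St) : sel v x ⊆ x.2.1 ∪ x.2.2 := by
  cases v
  · exact Finset.subset_union_left
  · exact Finset.subset_union_right

theorem le_nn (z : LK) (m : ℕ) (v : Bool) (s : List ℕ) (hs : s ∈ sel v (st z m)) :
    z.1 s ≤ (st z (m + 1)).1 := by
  rw [nn_succ]
  exact le_trans (Finset.le_sup (f := z.1) (sel_subset_union v _ hs)) (le_max_right _ _)

/-- The big subsystems. -/
def DD (v : Bool) (z : LK) : Set (List ℕ) := {σ | ∃ m, σ ∈ sel v (st z m)}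

theorem root_mem (z : LK) (v : Bool) (m : ℕ) : [] ∈ sel v (st z m) := by
  refine sel_mono z v (Nat.zero_le m) ?_
  cases v <;> simp [sel, st]

/-- Elements which appear at stage `m`. -/
theorem born (z : LK) (v : Bool) (m : ℕ) (σ : List ℕ) (h1 : σ ∈ sel v (st z (m + 1)))
    (h2 : σ ∉ sel v (st z m)) : m % 2 = (if v then 1 else 0) ∧
      ∃ s ∈ sel v (st z m), σ = s ++ [kk z m (st z (m + 1)).1 s] := by
  change σ ∈ sel v (step z m (st z m)) at h1
  rw [sel_step] at h1
  by_cases h : m % 2 = (if v then 1 else 0)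
  · rw [if_pos h] at h1
    refine ⟨h, ?_⟩
    rw [grow, Finset.mem_union] at h1
    rcases h1 with h1 | h1
    · exact absurd h1 h2
    · obtain ⟨s, hs, rfl⟩ := Finset.mem_image.1 h1
      exact ⟨s, hs, rfl⟩
  · rw [if_neg h] at h1
    exact absurd h1 h2

/-- First stage. -/
theorem first (z : LK) (v : Bool) (σ : List ℕ) (n : ℕ) (h1 : σ ∈ sel v (st z n)) (m : ℕ)
    (h2 : σ ∉ sel v (st z m)) : ∃ m', m ≤ m' ∧ σ ∈ sel v (st z (m' + 1)) ∧
      σ ∉ sel v (st z m') := by
  induction n with
  | zero => exact absurd (sel_mono z v (Nat.zero_le m) h1) h2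
  | succ n ih =>
    by_cases h : σ ∈ sel v (st z n)
    · exact ih h
    · refine ⟨n, ?_, h1, h⟩
      by_contra hn
      exact h2 (sel_mono z v (by omega) h1)

theorem down_mem (z : LK) (v : Bool) (m : ℕ) : ∀ σ k, σ ++ [k] ∈ sel v (st z m) →
    σ ∈ sel v (st z m) := by
  induction m with
  | zero =>
    intro σ k h
    exfalso
    cases v <;> simp [sel, st] at h
  | succ m ih =>
    intro σ k h
    by_cases h1 : σ ++ [k] ∈ sel v (st z m)
    · exact sel_sub z m v (ih σ k h1)
    · obtain ⟨_, s, hs, h2⟩ := born z v m _ h h1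
      have h3 := List.append_inj' h2 rfl
      rw [h3.1]
      exact sel_sub z m v hs

variable {z : LK}

theorem kk_spec (hz : ∀ σ n, ∃ k, n ≤ k ∧ n ≤ z.2 σ k) (m n : ℕ) (s : List ℕ) :
    m ≤ kk z m n s ∧ n ≤ z.2 s (kk z m n s) := by
  have h : {k | m ≤ k ∧ n ≤ z.2 s k}.Nonempty := by
    obtain ⟨k, h1, h2⟩ := hz s (max m n)
    exact ⟨k, (le_max_left _ _).trans h1, (le_max_right _ _).trans h2⟩
  exact Nat.sInf_mem h

theorem big (hz : ∀ σ n, ∃ k, n ≤ k ∧ n ≤ z.2 σ k) (v : Bool) : Big (DD v z) where
  nil := ⟨0, root_mem z v 0⟩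
  down := by
    rintro σ k ⟨m, hm⟩
    exact ⟨m, down_mem z v m σ k hm⟩
  inf := by
    rintro σ ⟨m, hm⟩ n
    obtain ⟨m', h1, h2⟩ : ∃ m', max m n ≤ m' ∧ m' % 2 = (if v then 1 else 0) := by
      cases v
      · exact ⟨2 * max m n, by omega, by simp⟩
      · exact ⟨2 * max m n + 1, by omega, by simp⟩
    refine ⟨kk z m' (st z (m' + 1)).1 σ, ((le_max_right _ _).trans h1).trans
      (kk_spec hz _ _ _).1, m' + 1, ?_⟩
    change _ ∈ sel v (step z m' (st z m'))
    rw [sel_step, if_pos h2, grow, Finset.mem_union]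
    refine Or.inr (Finset.mem_image.2 ⟨σ, sel_mono z v ((le_max_left _ _).trans h1) hm, rfl⟩)

/-- Elements present at stage `m` have control from the interval number `m` on. -/
theorem control_low (v : Bool) (m : ℕ) (hm : m % 2 = (if v then 1 else 0)) (σ : List ℕ)
    (hσ : σ ∈ sel v (st z m)) : z.1 σ ≤ (st z m).1 := by
  by_cases h0 : σ ∈ sel v (st z 0)
  · have : σ = [] := by
      cases v <;> simpa [sel, st] using h0
    subst this
    have h : (st z 0).1 ≤ (st z m).1 := (nn_strict z).monotone (Nat.zero_le m)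
    exact h
  · obtain ⟨m', _, h1, h2⟩ := first z v σ m hσ 0 h0
    obtain ⟨h3, _⟩ := born z v m' σ h1 h2
    have h4 : m' < m := by
      by_contra h
      exact h2 (sel_mono z v (not_lt.1 h) hσ)
    have h5 : m' + 1 + 1 ≤ m := by
      have : m' % 2 = m % 2 := by rw [h3, hm]
      omega
    refine (le_nn z (m' + 1) v σ h1).trans ?_
    exact (nn_strict z).monotone h5

/-- Control is kept until the next element is present. -/
theorem control_high (hz : ∀ σ n, ∃ k, n ≤ k ∧ n ≤ z.2 σ k) (v : Bool) (m : ℕ) (σ : List ℕ)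
    (k : ℕ) (h1 : σ ++ [k] ∈ DD v z) (h2 : σ ++ [k] ∉ sel v (st z m)) :
    (st z (m + 1)).1 ≤ z.2 σ k := by
  obtain ⟨n, hn⟩ := h1
  obtain ⟨m', h3, h4, h5⟩ := first z v _ n hn m h2
  obtain ⟨_, s, hs, h6⟩ := born z v m' _ h4 h5
  have h7 := List.append_inj' h6 rfl
  obtain ⟨h8, h9⟩ := h7
  subst h8
  have h10 : k = kk z m' (st z (m' + 1)).1 σ := by simpa using h9
  rw [h10]
  refine le_trans ?_ (kk_spec hz _ _ _).2
  exact (nn_strict z).monotone (by omega)

theorem DD_prefix (v : Bool) {σ τ : List ℕ} (h : σ <+: τ) (hτ : τ ∈ DD v z) : σ ∈ DD v z := by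
  obtain ⟨ρ, rfl⟩ := h
  induction ρ using List.reverseRecOn with
  | nil => simpa using hτ
  | append_singleton ρ k ih =>
    refine ih ?_
    rw [← List.append_assoc] at hτ
    obtain ⟨m, hm⟩ := hτ
    exact ⟨m, down_mem z v m _ k hm⟩

theorem sel_prefix (v : Bool) (m : ℕ) {σ τ : List ℕ} (h : σ <+: τ) (hτ : τ ∈ sel v (st z m)) :
    σ ∈ sel v (st z m) := by
  obtain ⟨ρ, rfl⟩ := h
  induction ρ using List.reverseRecOn with
  | nil => simpa using hτ
  | append_singleton ρ k ih =>
    refine ih ?_
    rw [← List.append_assoc] at hτ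
    exact down_mem z v m _ k hτ

/-- The control argument along a finite sequence. -/
theorem control (hz : ∀ σ n, ∃ k, n ≤ k ∧ n ≤ z.2 σ k) (v : Bool) (m : ℕ)
    (hm : m % 2 = (if v then 1 else 0)) (b : ℕ) (hb : (st z m).1 ≤ b)
    (hb' : b < (st z (m + 1)).1) (σ : List ℕ) (hσ : σ ∈ DD v z) :
    (∃ j, ∃ hj : j < σ.length, z.1 (σ.take j) ≤ b ∧ b < z.2 (σ.take j) σ[j]) ∨
      (z.1 σ ≤ b ∧ σ ∈ sel v (st z m)) := by
  classical
  by_cases h : σ ∈ sel v (st z m)
  · exact Or.inr ⟨(control_low v m hm σ h).trans hb, h⟩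
  · -- the last initial segment which is present
    left
    have hex : ∃ j, σ.take j ∉ sel v (st z m) := ⟨σ.length, by simpa using h⟩
    let j := Nat.find hex
    have h1 : σ.take j ∉ sel v (st z m) := Nat.find_spec hex
    have h2 : j ≤ σ.length := Nat.find_min' hex (by simpa using h)
    rcases Nat.eq_zero_or_pos j with h0 | h0
    · rw [h0] at h1
      exact absurd (root_mem z v m) (by simpa using h1)
    · obtain ⟨i, hi⟩ := Nat.exists_eq_succ_of_ne_zero h0.ne'
      have hi' : j = i + 1 := hi
      have h3 : i < σ.length := by omega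
      have h4 : σ.take i ∈ sel v (st z m) := by
        by_contra h4
        have := Nat.find_min' hex h4
        change j ≤ i at this
        omega
      have h5 : σ.take (i + 1) = σ.take i ++ [σ[i]] := by
        rw [List.take_append_getElem]
      refine ⟨i, h3, (control_low v m hm _ h4).trans hb, hb'.trans_le ?_⟩
      refine control_high hz v m _ _ ?_ ?_
      · rw [← h5]
        exact DD_prefix v (List.take_prefix _ _) hσ
      · rw [← h5, ← hi']
        exact h1

theorem ini_length (g : ℕ → ℕ) (n : ℕ) : (ini g n).length = n := by simp [ini]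

theorem ini_take (g : ℕ → ℕ) {m n : ℕ} (h : m ≤ n) : (ini g n).take m = ini g m := by
  simp [ini, ← List.map_take, List.take_range, min_eq_left h]

theorem ini_get (g : ℕ → ℕ) (n i : ℕ) (h : i < (ini g n).length) : (ini g n)[i] = g i := by
  simp [ini]

/-- Branches leave every finite part. -/
theorem branch_leaves (z : LK) (v : Bool) (m : ℕ) (g : ℕ → ℕ) :
    ∃ n, ini g n ∉ sel v (st z m) := by
  by_contra h
  push Not at h
  have h1 : Function.Injective (ini g) := by
    intro a b hab
    have := congrArg List.length hab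
    simpa [ini_length] using this
  exact Set.infinite_range_of_injective h1 ((sel v (st z m)).finite_toSet.subset
    (by rintro _ ⟨n, rfl⟩; exact h n))

/-! ### Measurability -/

theorem measL (σ : List ℕ) : MeasC (fun z : LK => z.1 σ) :=
  mcCountable fun n => by
    have h : Measurable fun z : LK => z.1 σ := (measurable_pi_apply σ).comp measurable_fst
    exact h (measurableSet_singleton n)

theorem measK (σ : List ℕ) (k : ℕ) : MeasC (fun z : LK => z.2 σ k) :=
  mcCountable fun n => by
    have h : Measurable fun z : LK => z.2 σ k :=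
      (measurable_pi_apply k).comp ((measurable_pi_apply σ).comp measurable_snd)
    exact h (measurableSet_singleton n)

theorem measSup (A : Finset (List ℕ)) : MeasC (fun z : LK => A.sup z.1) := by
  classical
  induction A using Finset.induction_on with
  | empty => exact mcConst 0
  | insert a A ha ih =>
    have h : (fun z : LK => (insert a A).sup z.1) = fun z : LK => max (z.1 a) (A.sup z.1) := by
      funext z
      rw [Finset.sup_insert]
    rw [h]
    exact mcComp (mcPair (measL a) ih) fun p => max p.1 p.2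

theorem measKk (m n : ℕ) (s : List ℕ) : MeasC (fun z : LK => kk z m n s) :=
  mcInf fun k => MeasurableSet.inter (MeasurableSet.const _)
    (mcPre (measK s k) {x | n ≤ x})

theorem measGrow (m n : ℕ) (A : Finset (List ℕ)) : MeasC (fun z : LK => grow z m n A) := by
  classical
  have h1 : MeasC (fun z : LK => A.image fun s => s ++ [kk z m n s]) := by
    induction A using Finset.induction_on with
    | empty => exact mcConst ∅
    | insert a A ha ih =>
      have h : (fun z : LK => (insert a A).image fun s => s ++ [kk z m n s]) =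
          fun z : LK => insert (a ++ [kk z m n a]) (A.image fun s => s ++ [kk z m n s]) := by
        funext z
        rw [Finset.image_insert]
      rw [h]
      exact mcComp (mcPair (measKk m n a) ih) fun p => insert (a ++ [p.1]) p.2
  exact mcComp h1 fun B => A ∪ B

theorem measNx (x : St) : MeasC (fun z : LK => nx' z x) :=
  mcComp (measSup (x.2.1 ∪ x.2.2)) fun a => max (x.1 + 1) a

theorem measStep (m : ℕ) (x : St) : MeasC (fun z : LK => step z m x) := by
  refine mcBind (measNx x) (g := fun n z => ((n, if m % 2 = 0 then grow z m n x.2.1 else x.2.1,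
    if m % 2 = 0 then x.2.2 else grow z m n x.2.2) : St)) fun n => ?_
  refine mcPair (mcConst n) (mcPair ?_ ?_)
  · exact mcIte (MeasurableSet.const _) (measGrow m n _) (mcConst _)
  · exact mcIte (MeasurableSet.const _) (mcConst _) (measGrow m n _)

theorem measSt (m : ℕ) : MeasC (fun z : LK => st z m) := by
  induction m with
  | zero => exact mcComp (measL []) fun n => (n, {[]}, {[]})
  | succ m ih => exact mcBind ih (g := fun x z => step z m x) fun x => measStep m x

theorem gap : GapStmt := by
  refine ⟨fun z m => (st z m).1, DD, fun k => mcComp (measSt k) fun x => x.1, ?_, ?_⟩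
  · intro v σ
    have h : {z : LK | σ ∈ DD v z} = ⋃ m, {z : LK | σ ∈ sel v (st z m)} := by
      ext z
      simp [DD]
    rw [h]
    exact MeasurableSet.iUnion fun m => mcPre (measSt m) {x | σ ∈ sel v x}
  · intro z hz
    refine ⟨nn_strict z, fun v => ⟨big hz v, fun m hm b hb hb' => ⟨fun σ hσ => ?_,
      fun g hg => ?_⟩⟩⟩
    · exact (control hz v m hm b hb hb' σ hσ).imp_right fun h => h.1
    · obtain ⟨n, hn⟩ := branch_leaves z v m g
      rcases control hz v m hm b hb hb' (ini g n) (hg n) with ⟨j, hj, h1, h2⟩ | h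
      · have hjn : j ≤ n := by
          rw [ini_length] at hj
          exact hj.le
        rw [ini_take g hjn] at h1 h2
        rw [ini_get] at h2
        exact ⟨j, h1, h2⟩
      · exact absurd h.2 hn

end Pool.Agent.MG.H63
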