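import Pool.Agent.Helper63_MG.Util

/-!
# RH: the reservoir hull
-/

open Set

namespace Pool.Agent.MG.H63

/-- Pseudo intersections of decreasing sequences. -/
theorem pseudo (A : ℕ → Set ℕ) (hinf : ∀ n, (A n).Infinite) (hdec : ∀ n, A (n + 1) ⊆ A n) :
    ∃ B ⊆ A 0, B.Infinite ∧ ∀ n, (B \ A n).Finite := by
  have hex : ∀ n b : ℕ, ∃ c ∈ A n, b < c := fun n b => (hinf n).exists_gt b
  choose f hf1 hf2 using hex
  let g : ℕ → ℕ := fun n => Nat.rec (f 0 0) (fun n x => f (n + 1) x) n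
  have hg0 : g 0 = f 0 0 := rfl
  have hgs : ∀ n, g (n + 1) = f (n + 1) (g n) := fun _ => rfl
  have hmem : ∀ n, g n ∈ A n := by
    rintro (_ | n)
    · exact hf1 0 0
    · rw [hgs]
      exact hf1 _ _
  have hmono : StrictMono g := strictMono_nat_of_lt_succ fun n => by
    rw [hgs]
    exact hf2 _ _
  have hsub : ∀ m n, m ≤ n → A n ⊆ A m := by
    intro m n h
    induction h with
    | refl => exact Subset.rfl
    | step _ ih => exact (hdec _).trans ih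
  refine ⟨Set.range g, ?_, Set.infinite_range_of_injective hmono.injective, fun n => ?_⟩
  · rintro _ ⟨n, rfl⟩
    exact hsub 0 n (Nat.zero_le _) (hmem n)
  · refine ((Set.finite_lt_nat n).image g).subset ?_
    rintro _ ⟨⟨m, rfl⟩, hm⟩
    refine ⟨m, ?_, rfl⟩
    by_contra h
    exact hm (hsub n m (not_lt.1 h) (hmem m))

section

universe u

variable {W : Type u} (C : Set ℕ) (Ok : W → Prop) (Ru : ℕ → List W → Set W → Set ℕ → Prop)

/-- One round: all the rules for the elements of `H`. -/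
theorem round (hRu : ∀ n l, (∀ w ∈ l, Ok w) → ∀ C' ⊆ C, C'.Infinite → ∃ O : Set W, O.Countable ∧
      (∀ w ∈ O, Ok w) ∧ ∃ C'' ⊆ C', C''.Infinite ∧ Ru n l O C'')
    (H : Set W) (hH : H.Countable) (hok : ∀ w ∈ H, Ok w) (C' : Set ℕ) (hC : C' ⊆ C)
    (hinf : C'.Infinite) : ∃ (H' : Set W) (B : Set ℕ), H'.Countable ∧ H ⊆ H' ∧
      (∀ w ∈ H', Ok w) ∧ B ⊆ C' ∧ B.Infinite ∧ ∀ n l, (∀ w ∈ l, w ∈ H) →
        ∃ O ⊆ H', ∃ C3 ⊆ C, C3.Infinite ∧ (B \ C3).Finite ∧ Ru n l O C3 := by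
  classical
  -- the tasks
  let Tk : Set (ℕ × List W) := {t | ∀ w ∈ t.2, w ∈ H}
  have hTk : Tk.Countable := by
    have h1 : {l : List W | ∀ w ∈ l, w ∈ H}.Countable := by
      have : Countable H := hH.to_subtype
      refine (Set.countable_range (List.map (Subtype.val : H → W))).mono ?_
      intro l hl
      have hl' : ∀ w ∈ l, w ∈ H := hl
      refine ⟨l.attach.map fun w => ⟨w.1, hl' w.1 w.2⟩, ?_⟩
      simp
    have h2 : Tk = (Set.univ : Set ℕ) ×ˢ {l : List W | ∀ w ∈ l, w ∈ H} := by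
      ext t
      simp [Tk]
    rw [h2]
    exact Set.countable_univ.prod h1
  have hne : Tk.Nonempty := ⟨(0, []), by simp [Tk]⟩
  obtain ⟨t, ht⟩ := hTk.exists_eq_range hne
  have htH : ∀ i, ∀ w ∈ (t i).2, w ∈ H := by
    intro i
    have : t i ∈ Tk := by
      rw [ht]
      exact ⟨i, rfl⟩
    exact this
  have hstep : ∀ (i : ℕ) (A : {A : Set ℕ // A ⊆ C' ∧ A.Infinite}),
      ∃ (O : Set W) (A' : {A : Set ℕ // A ⊆ C' ∧ A.Infinite}), O.Countable ∧ (∀ w ∈ O, Ok w) ∧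
        A'.1 ⊆ A.1 ∧ Ru (t i).1 (t i).2 O A'.1 := by
    rintro i ⟨A, hA, hAi⟩
    obtain ⟨O, h1, h2, C2, h3, h4, h5⟩ := hRu (t i).1 (t i).2
      (fun w hw => hok w (htH i w hw)) A (hA.trans hC) hAi
    exact ⟨O, ⟨C2, h3.trans hA, h4⟩, h1, h2, h3, h5⟩
  choose O A' hO1 hO2 hA' hR using hstep
  let S : ℕ → {A : Set ℕ // A ⊆ C' ∧ A.Infinite} :=
    fun n => Nat.rec ⟨C', Subset.rfl, hinf⟩ (fun n x => A' n x) n
  have hSs : ∀ n, S (n + 1) = A' n (S n) := fun _ => rfl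
  obtain ⟨B, hB0, hBi, hBf⟩ := pseudo (fun n => (S n).1) (fun n => (S n).2.2)
    (fun n => by
      rw [hSs]
      exact hA' _ _)
  refine ⟨H ∪ ⋃ n, O n (S n), B, hH.union (Set.countable_iUnion fun n => hO1 _ _),
    subset_union_left, ?_, hB0, hBi, fun n l hl => ?_⟩
  · rintro w (hw | hw)
    · exact hok w hw
    · obtain ⟨n, hn⟩ := mem_iUnion.1 hw
      exact hO2 _ _ w hn
  · have hmem : (n, l) ∈ Tk := hl
    rw [ht] at hmem
    obtain ⟨i, hi⟩ := hmem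
    refine ⟨O i (S i), (subset_iUnion (fun n => O n (S n)) i).trans subset_union_right,
      (S (i + 1)).1, (S (i + 1)).2.1.trans hC, (S (i + 1)).2.2, hBf (i + 1), ?_⟩
    rw [hSs]
    have := hR i (S i)
    rw [hi] at this
    exact this

end

theorem rh : RhStmt := by
  classical
  intro W W0 hW0 C hC Ok Ru hok hRu
  have hstep : ∀ x : {x : Set W × Set ℕ // x.1.Countable ∧ (∀ w ∈ x.1, Ok w) ∧ x.2 ⊆ C ∧
      x.2.Infinite}, ∃ x' : {x : Set W × Set ℕ // x.1.Countable ∧ (∀ w ∈ x.1, Ok w) ∧ x.2 ⊆ C ∧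
      x.2.Infinite}, x.1.1 ⊆ x'.1.1 ∧ x'.1.2 ⊆ x.1.2 ∧ ∀ n l, (∀ w ∈ l, w ∈ x.1.1) →
        ∃ O ⊆ x'.1.1, ∃ C3 ⊆ C, C3.Infinite ∧ (x'.1.2 \ C3).Finite ∧ Ru n l O C3 := by
    rintro ⟨⟨H, C'⟩, h1, h2, h3, h4⟩
    obtain ⟨H', B, h5, h6, h7, h8, h9, h10⟩ := round C Ok Ru hRu H h1 h2 C' h3 h4
    exact ⟨⟨⟨H', B⟩, h5, h7, h8.trans h3, h9⟩, h6, h8, h10⟩
  choose nx hnx1 hnx2 hnx3 using hstep
  let S : ℕ → {x : Set W × Set ℕ // x.1.Countable ∧ (∀ w ∈ x.1, Ok w) ∧ x.2 ⊆ C ∧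
      x.2.Infinite} := fun n => Nat.rec ⟨⟨W0, C⟩, hW0, hok, Subset.rfl, hC⟩ (fun _ x => nx x) n
  have hSs : ∀ n, S (n + 1) = nx (S n) := fun _ => rfl
  have hmono : ∀ m n, m ≤ n → (S m).1.1 ⊆ (S n).1.1 := by
    intro m n h
    induction h with
    | refl => exact Subset.rfl
    | step _ ih =>
      refine ih.trans ?_
      rw [Nat.succ_eq_add_one, hSs]
      exact hnx1 _
  obtain ⟨B, hB0, hBi, hBf⟩ := pseudo (fun n => (S n).1.2) (fun n => (S n).2.2.2.2)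
    (fun n => by
      rw [hSs]
      exact hnx2 _)
  refine ⟨⋃ n, (S n).1.1, B, Set.countable_iUnion fun n => (S n).2.1,
    subset_iUnion (fun n => (S n).1.1) 0, ?_, hB0, hBi, fun n l hl => ?_⟩
  · intro w hw
    obtain ⟨n, hn⟩ := mem_iUnion.1 hw
    exact (S n).2.2.1 w hn
  · have hk : ∃ k, ∀ w ∈ l, w ∈ (S k).1.1 := by
      induction l with
      | nil => exact ⟨0, by simp⟩
      | cons a l ih =>
        obtain ⟨k, hk⟩ := ih fun w hw => hl w (List.mem_cons_of_mem _ hw)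
        obtain ⟨j, hj⟩ := mem_iUnion.1 (hl a (List.mem_cons_self))
        refine ⟨max k j, fun w hw => ?_⟩
        rcases List.mem_cons.1 hw with rfl | hw
        · exact hmono _ _ (le_max_right _ _) hj
        · exact hmono _ _ (le_max_left _ _) (hk w hw)
    obtain ⟨k, hk⟩ := hk
    obtain ⟨O, hO, C3, h1, h2, h3, h4⟩ := hnx3 (S k) n l hk
    rw [← hSs] at hO h3
    refine ⟨O, hO.trans (subset_iUnion (fun n => (S n).1.1) (k + 1)), C3, h1, h2, ?_, h4⟩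
    refine ((hBf (k + 1)).union h3).subset ?_
    rintro x ⟨hx1, hx2⟩
    by_cases hx : x ∈ (S (k + 1)).1.2
    · exact Or.inr ⟨hx, hx2⟩
    · exact Or.inl ⟨hx1, hx⟩

end Pool.Agent.MG.H63
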