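import Pool.Agent.Helper63_MG.Util

/-!
# TYP: subsystems of constant type
-/

open Set

namespace Pool.Agent.MG.H63

/-- Enumeration of the finite sequences. -/
def enL (n : ℕ) : List ℕ := (Encodable.decode (α := List ℕ) n).getD []

theorem enL_surj (l : List ℕ) : ∃ n, enL n = l := ⟨Encodable.encode l, by simp [enL]⟩

theorem tyMeas (t : List ℕ) (b : Bool) : MeasurableSet {i : List ℕ → Bool | i t = b} := by
  have h : Measurable fun i : List ℕ → Bool => i t := measurable_pi_apply t
  exact h (measurableSet_singleton b)

/-- All the extensions of `s` have type `false`. -/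
def Dead (i : List ℕ → Bool) (s : List ℕ) : Prop := ∀ t, s <+: t → i t = false

theorem dead_meas (s : List ℕ) : MeasurableSet {i | Dead i s} := by
  have h : {i | Dead i s} = ⋂ t ∈ {t | s <+: t}, {i : List ℕ → Bool | i t = false} := by
    ext i
    simp only [mem_iInter]
    rfl
  rw [h]
  exact MeasurableSet.biInter (Set.to_countable _) fun t _ => tyMeas t false

open Classical in
/-- The type. -/
noncomputable def tyV (i : List ℕ → Bool) : Bool := if ∃ s, Dead i s then false else true

theorem exDead_meas : MeasurableSet {i | ∃ s, Dead i s} := by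
  have h : {i | ∃ s, Dead i s} = ⋃ s, {i | Dead i s} := by
    ext i
    simp
  rw [h]
  exact MeasurableSet.iUnion fun s => dead_meas s

theorem tyV_meas : MeasC tyV := by
  classical
  unfold tyV
  exact mcIte exDead_meas (mcConst _) (mcConst _)

/-- First extension of type `true`. -/
noncomputable def nxt (i : List ℕ → Bool) (s : List ℕ) : List ℕ :=
  enL (sInf {n | s <+: enL n ∧ i (enL n) = true})

/-- First dead node. -/
noncomputable def ded (i : List ℕ → Bool) : List ℕ := enL (sInf {n | Dead i (enL n)})

theorem nxt_meas (s : List ℕ) : MeasC (fun i => nxt i s) :=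
  mcComp (mcInf fun n => MeasurableSet.inter (MeasurableSet.const _) (tyMeas (enL n) true)) enL

theorem ded_meas : MeasC ded :=
  mcComp (mcInf fun n => dead_meas (enL n)) enL

open Classical in
/-- One step. -/
noncomputable def stp (i : List ℕ → Bool) (s : List ℕ) (k : ℕ) : List ℕ :=
  if ∃ s, Dead i s then s ++ [k] else nxt i (s ++ [k])

open Classical in
/-- The root. -/
noncomputable def rt (i : List ℕ → Bool) : List ℕ := if ∃ s, Dead i s then ded i else nxt i []

/-- The subsystem. -/
noncomputable def tyH (σ : List ℕ) (i : List ℕ → Bool) : List ℕ := σ.foldl (stp i) (rt i)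

theorem tyH_snoc (σ : List ℕ) (k : ℕ) (i : List ℕ → Bool) :
    tyH (σ ++ [k]) i = stp i (tyH σ i) k := by
  simp [tyH]

theorem tyH_meas (σ : List ℕ) : MeasC (tyH σ) := by
  classical
  induction σ using List.reverseRecOn with
  | nil =>
    have h : tyH [] = fun i => rt i := by
      funext i
      rfl
    rw [h]
    unfold rt
    exact mcIte exDead_meas ded_meas (nxt_meas [])
  | append_singleton σ k ih =>
    have h : tyH (σ ++ [k]) = fun i => stp i (tyH σ i) k := by
      funext i
      exact tyH_snoc σ k i
    rw [h]
    refine mcBind ih (g := fun x i => stp i x k) fun x => ?_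
    unfold stp
    exact mcIte exDead_meas (mcConst _) (nxt_meas _)

theorem ded_spec {i : List ℕ → Bool} (h : ∃ s, Dead i s) : Dead i (ded i) := by
  obtain ⟨s, hs⟩ := h
  obtain ⟨n, rfl⟩ := enL_surj s
  exact Nat.sInf_mem (s := {n | Dead i (enL n)}) ⟨n, hs⟩

theorem nxt_spec {i : List ℕ → Bool} (h : ¬ ∃ s, Dead i s) (s : List ℕ) :
    s <+: nxt i s ∧ i (nxt i s) = true := by
  have h1 : ∃ t, s <+: t ∧ i t = true := by
    by_contra h2
    push Not at h2
    exact h ⟨s, fun t ht => by simpa using h2 t ht⟩
  obtain ⟨t, ht⟩ := h1
  obtain ⟨n, rfl⟩ := enL_surj t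
  exact Nat.sInf_mem (s := {n | s <+: enL n ∧ i (enL n) = true}) ⟨n, ht⟩

theorem typ : TypStmt := by
  classical
  refine ⟨tyV, tyH, tyV_meas, tyH_meas, fun i => ?_⟩
  by_cases h : ∃ s, Dead i s
  · have hpre : ∀ σ, ded i <+: tyH σ i := by
      intro σ
      induction σ using List.reverseRecOn with
      | nil =>
        have : tyH [] i = ded i := by
          simp [tyH, rt, h]
        rw [this]
      | append_singleton σ k ih =>
        rw [tyH_snoc]
        have : stp i (tyH σ i) k = tyH σ i ++ [k] := by
          simp [stp, h]
        rw [this]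
        exact ih.trans (List.prefix_append _ _)
    refine ⟨fun σ => ?_, fun σ k => ?_⟩
    · rw [ded_spec h _ (hpre σ)]
      simp [tyV, h]
    · rw [tyH_snoc]
      have : stp i (tyH σ i) k = tyH σ i ++ [k] := by
        simp [stp, h]
      rw [this]
  · refine ⟨fun σ => ?_, fun σ k => ?_⟩
    · have hv : tyV i = true := by
        simp [tyV, h]
      rw [hv]
      induction σ using List.reverseRecOn with
      | nil =>
        have : tyH [] i = nxt i [] := by
          simp [tyH, rt, h]
        rw [this]
        exact (nxt_spec h _).2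
      | append_singleton σ k ih =>
        rw [tyH_snoc]
        have : stp i (tyH σ i) k = nxt i (tyH σ i ++ [k]) := by
          simp [stp, h]
        rw [this]
        exact (nxt_spec h _).2
    · rw [tyH_snoc]
      have : stp i (tyH σ i) k = nxt i (tyH σ i ++ [k]) := by
        simp [stp, h]
      rw [this]
      exact (nxt_spec h _).1

end Pool.Agent.MG.H63
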