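import Pool.Agent.Helper56_MG.Stmts

/-!
# Functions with measurable fibres and countable range (own copies, no dependence on Base)
-/

open Set

namespace Pool.Agent.MG.H63

variable {Ω X Y : Type*} [MeasurableSpace Ω]

theorem mcConst (x : X) : MeasC (fun _ : Ω => x) := by
  refine ⟨fun y => ?_, (Set.countable_singleton x).mono (by rintro _ ⟨_, rfl⟩; rfl)⟩
  by_cases h : x = y
  · simp [h]
  · simp [h]

theorem mcSetOf {f : Ω → X} (hf : MeasC f) {P : X → Ω → Prop}
    (hP : ∀ x, MeasurableSet {w | P x w}) : MeasurableSet {w | P (f w) w} := by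
  have h : {w | P (f w) w} = ⋃ x ∈ Set.range f, ({w | f w = x} ∩ {w | P x w}) := by
    ext w
    simp only [mem_iUnion, mem_inter_iff, exists_prop]
    constructor
    · intro h
      exact ⟨f w, ⟨w, rfl⟩, rfl, h⟩
    · rintro ⟨x, _, h1, h2⟩
      have h3 : f w = x := h1
      subst h3
      exact h2
  rw [h]
  exact MeasurableSet.biUnion hf.2 fun x _ => (hf.1 x).inter (hP x)

theorem mcPre {f : Ω → X} (hf : MeasC f) (A : Set X) : MeasurableSet {w | f w ∈ A} :=
  mcSetOf hf (P := fun x _ => x ∈ A) fun x => by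
    by_cases h : x ∈ A <;> simp [h]

theorem mcBind {f : Ω → X} (hf : MeasC f) {g : X → Ω → Y} (hg : ∀ x, MeasC (g x)) :
    MeasC (fun w => g (f w) w) := by
  refine ⟨fun y => mcSetOf hf (P := fun x w => g x w = y) fun x => (hg x).1 y, ?_⟩
  refine (hf.2.biUnion fun x _ => (hg x).2).mono ?_
  rintro _ ⟨w, rfl⟩
  simp only [mem_iUnion]
  exact ⟨f w, ⟨w, rfl⟩, w, rfl⟩

theorem mcComp {f : Ω → X} (hf : MeasC f) (g : X → Y) : MeasC (fun w => g (f w)) :=
  mcBind hf fun x => mcConst (g x)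

theorem mcPair {f : Ω → X} {g : Ω → Y} (hf : MeasC f) (hg : MeasC g) :
    MeasC (fun w => (f w, g w)) :=
  mcBind hf (g := fun x w => (x, g w)) fun x => mcComp hg fun y => (x, y)

theorem mcIte {f g : Ω → X} {p : Ω → Prop} [DecidablePred p] (hp : MeasurableSet {w | p w})
    (hf : MeasC f) (hg : MeasC g) : MeasC (fun w => if p w then f w else g w) := by
  constructor
  · intro x
    have h : {w | (if p w then f w else g w) = x} =
        ({w | p w} ∩ {w | f w = x}) ∪ ({w | p w}ᶜ ∩ {w | g w = x}) := by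
      ext w
      by_cases h : p w <;> simp [h]
    rw [h]
    exact (hp.inter (hf.1 x)).union (hp.compl.inter (hg.1 x))
  · refine (hf.2.union hg.2).mono ?_
    rintro _ ⟨w, rfl⟩
    by_cases h : p w
    · simp only [h, if_true]
      exact Or.inl ⟨w, rfl⟩
    · simp only [h, if_false]
      exact Or.inr ⟨w, rfl⟩

theorem mcCountable [Countable X] {f : Ω → X} (h : ∀ x, MeasurableSet {w | f w = x}) : MeasC f :=
  ⟨h, Set.to_countable _⟩

theorem sInf_eq_iff (S : Set ℕ) (k : ℕ) :
    sInf S = k ↔ (k ∈ S ∧ ∀ j < k, j ∉ S) ∨ ((∀ j, j ∉ S) ∧ k = 0) := by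
  constructor
  · rintro rfl
    by_cases h : S.Nonempty
    · exact Or.inl ⟨Nat.sInf_mem h, fun j hj => Nat.notMem_of_lt_sInf hj⟩
    · rw [Set.not_nonempty_iff_eq_empty] at h
      exact Or.inr ⟨by simp [h], by simp [h]⟩
  · rintro (⟨h1, h2⟩ | ⟨h1, rfl⟩)
    · refine le_antisymm (Nat.sInf_le h1) ?_
      by_contra h
      push Not at h
      exact h2 _ h (Nat.sInf_mem ⟨k, h1⟩)
    · have : S = ∅ := Set.eq_empty_of_forall_notMem h1
      simp [this]

theorem mcInf {P : ℕ → Ω → Prop} (hP : ∀ n, MeasurableSet {w | P n w}) :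
    MeasC (fun w => sInf {n | P n w}) := by
  refine mcCountable fun k => ?_
  have h : {w | sInf {n | P n w} = k} =
      ({w | P k w} ∩ ⋂ j ∈ {j | j < k}, {w | P j w}ᶜ) ∪ ((⋂ j, {w | P j w}ᶜ) ∩ {_w | k = 0}) := by
    ext w
    rw [mem_ofPred_eq, sInf_eq_iff]
    simp
  rw [h]
  refine MeasurableSet.union ((hP k).inter ?_) (MeasurableSet.inter ?_ ?_)
  · exact MeasurableSet.biInter (Set.to_countable _) fun j _ => (hP j).compl
  · exact MeasurableSet.iInter fun j => (hP j).compl
  · by_cases h : k = 0 <;> simp [h]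

/-- Measurability of sets of naturals. -/
theorem measSet {T : Ω → Set ℕ} (h : ∀ n, MeasurableSet {w | n ∈ T w}) : Measurable T := by
  rw [measurable_set_iff]
  intro a
  exact measurableSet_setOfPred.1 (h a)

theorem infinite_iff (S : Set ℕ) : S.Infinite ↔ ∀ n, ∃ k, n ≤ k ∧ k ∈ S := by
  rw [Set.infinite_iff_exists_gt]
  constructor
  · intro h n
    obtain ⟨b, hb, hn⟩ := h n
    exact ⟨b, hn.le, hb⟩
  · intro h n
    obtain ⟨b, hn, hb⟩ := h (n + 1)
    exact ⟨b, hb, by omega⟩

theorem measInf {P : ℕ → Ω → Prop} (hP : ∀ n, MeasurableSet {w | P n w}) :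
    MeasurableSet {w | {k | P k w}.Infinite} := by
  have h : {w | {k | P k w}.Infinite} = ⋂ n, ⋃ k ∈ {k | n ≤ k}, {w | P k w} := by
    ext w
    simp only [mem_ofPred_eq, infinite_iff, mem_iInter, mem_iUnion, exists_prop]
  rw [h]
  exact MeasurableSet.iInter fun n => MeasurableSet.biUnion (Set.to_countable _) fun k _ => hP k

end Pool.Agent.MG.H63
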